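import Pool.Agent.W483.FB.Stm2

/-!
# FB-4: algebra of the linear combinations of the generators
-/

open Finset Matrix

namespace Pool.Agent.W925.FB

open Pool.Agent.W483.FB

theorem anti {n : ℕ} (A B : Fin n → Mat n) (v w : Fin n → ℝ) :
    (∑ i, v i • A i) * (∑ j, w j • B j) + (∑ j, w j • B j) * (∑ i, v i • A i) =
      ∑ i, ∑ j, (v i * w j) • (A i * B j + B j * A i) := by
  rw [Finset.sum_mul_sum, Finset.sum_mul_sum]
  have h : (∑ i : Fin n, ∑ j : Fin n, w i • B i * v j • A j) =
      ∑ i : Fin n, ∑ j : Fin n, (v i * w j) • (B j * A i) := by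
    rw [Finset.sum_comm]
    refine Finset.sum_congr rfl fun i _ => Finset.sum_congr rfl fun j _ => ?_
    rw [smul_mul_smul_comm, mul_comm (w j)]
  rw [h, ← Finset.sum_add_distrib]
  refine Finset.sum_congr rfl fun i _ => ?_
  rw [← Finset.sum_add_distrib]
  refine Finset.sum_congr rfl fun j _ => ?_
  rw [smul_mul_smul_comm, smul_add]

theorem t_alg : S_alg := by
  intro n c v w
  refine ⟨?_, ?_, ?_, ?_, ?_⟩
  · unfold Cliff.E
    rw [anti]
    have h : ∀ i j, (v i * w j) • (c.e i * c.e j + c.e j * c.e i) =
        if i = j then (2 * (v i * w j)) • (1 : Mat n) else 0 := by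
      intro i j
      split_ifs with hij
      · subst hij
        rw [c.e_sq, ← two_smul ℝ (1 : Mat n), smul_smul, mul_comm]
      · rw [c.ee i j hij, smul_zero]
    simp only [h, Finset.sum_ite_eq, Finset.mem_univ, if_true]
    rw [← Finset.sum_smul, ← Finset.mul_sum]
  · unfold Cliff.F
    rw [anti]
    have h : ∀ i j, (v i * w j) • (c.f i * c.f j + c.f j * c.f i) =
        if i = j then (-(2 * (v i * w j))) • (1 : Mat n) else 0 := by
      intro i j
      split_ifs with hij
      · subst hij
        rw [c.f_sq, ← two_smul ℝ (-1 : Mat n), smul_smul, smul_neg, neg_smul, mul_comm]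
      · rw [c.ff i j hij, smul_zero]
    simp only [h, Finset.sum_ite_eq, Finset.mem_univ, if_true]
    rw [← Finset.sum_smul, Finset.sum_neg_distrib, ← Finset.mul_sum]
  · unfold Cliff.E Cliff.F
    rw [anti]
    simp only [c.ef, smul_zero, Finset.sum_const_zero]
  · unfold Cliff.E
    simp only [Matrix.transpose_sum, Matrix.transpose_smul, c.e_tr]
  · unfold Cliff.F
    simp only [Matrix.transpose_sum, Matrix.transpose_smul, c.f_tr, smul_neg,
      Finset.sum_neg_distrib]

end Pool.Agent.W925.FB
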